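import Mathlib

set_option autoImplicit false

namespace Pool.Agent.H.MP_1b5659_co

open Matrix

/-- rigidity matrix restricted to the rows satisfying `P` -/
noncomputable def RM {n : ℕ} (P : Fin n × Fin n → Prop) [∀ a, Decidable (P a)]
    (q : Fin n → Fin 3 → ℝ) : Matrix (Fin n × Fin n) (Fin n × Fin 3) ℝ :=
  Matrix.of fun (a : Fin n × Fin n) (b : Fin n × Fin 3) =>
    if P a then
      ((if b.1 = a.1 then (1 : ℝ) else 0) - (if b.1 = a.2 then (1 : ℝ) else 0))
        * (q a.1 b.2 - q a.2 b.2)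
    else (0 : ℝ)

/-- infinitesimal change of the squared length -/
def cc {n : ℕ} (q : Fin n → Fin 3 → ℝ) (u : Fin n × Fin 3 → ℝ) (i j : Fin n) : ℝ :=
  (q i 0 - q j 0) * (u (i, 0) - u (j, 0)) + (q i 1 - q j 1) * (u (i, 1) - u (j, 1))
    + (q i 2 - q j 2) * (u (i, 2) - u (j, 2))

lemma RM_mulVec {n : ℕ} (P : Fin n × Fin n → Prop) [∀ a, Decidable (P a)]
    (q : Fin n → Fin 3 → ℝ) (u : Fin n × Fin 3 → ℝ) (a : Fin n × Fin n) :
    (RM P q).mulVec u a = if P a then cc q u a.1 a.2 else 0 := by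
  unfold RM
  simp only [Matrix.mulVec, dotProduct, Matrix.of_apply]
  by_cases h : P a
  · simp only [h, if_true]
    rw [Fintype.sum_prod_type]
    have : ∀ (i : Fin n) (k : Fin 3),
        ((if i = a.1 then (1 : ℝ) else 0) - (if i = a.2 then (1 : ℝ) else 0))
          * (q a.1 k - q a.2 k) * u (i, k) =
        (if i = a.1 then (q a.1 k - q a.2 k) * u (i, k) else 0)
          - (if i = a.2 then (q a.1 k - q a.2 k) * u (i, k) else 0) := by
      intro i k
      split_ifs <;> ring
    simp only [this]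
    rw [Finset.sum_comm]
    simp only [Finset.sum_sub_distrib, Finset.sum_ite_eq', Finset.mem_univ, if_true]
    simp only [Fin.sum_univ_three, cc]
    ring
  · simp [h]

lemma mem_ker_RM {n : ℕ} (P : Fin n × Fin n → Prop) [∀ a, Decidable (P a)]
    (q : Fin n → Fin 3 → ℝ) (u : Fin n × Fin 3 → ℝ) :
    u ∈ LinearMap.ker (RM P q).mulVecLin ↔ ∀ i j, P (i, j) → cc q u i j = 0 := by
  rw [LinearMap.mem_ker, Matrix.mulVecLin_apply]
  constructor
  · intro h i j hp
    have := congrFun h (i, j)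
    rw [RM_mulVec] at this
    simpa [hp] using this
  · intro h
    funext a
    rw [RM_mulVec]
    by_cases hp : P a
    · simp only [hp, if_true]; exact h a.1 a.2 hp
    · simp [hp]

lemma rank_add_ker {n : ℕ} (P : Fin n × Fin n → Prop) [∀ a, Decidable (P a)]
    (q : Fin n → Fin 3 → ℝ) :
    (RM P q).rank + Module.finrank ℝ (LinearMap.ker (RM P q).mulVecLin) = n * 3 := by
  have := LinearMap.finrank_range_add_finrank_ker (RM P q).mulVecLin
  rw [Matrix.rank]
  simpa using this

/-- trivial motions -/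
def triv {n : ℕ} (q : Fin n → Fin 3 → ℝ) : (Fin 6 → ℝ) →ₗ[ℝ] (Fin n × Fin 3 → ℝ) where
  toFun w := fun b => ![w 0 + (w 4 * q b.1 2 - w 5 * q b.1 1),
    w 1 + (w 5 * q b.1 0 - w 3 * q b.1 2), w 2 + (w 3 * q b.1 1 - w 4 * q b.1 0)] b.2
  map_add' := by
    intro x y; funext b; obtain ⟨i, k⟩ := b
    fin_cases k <;> simp <;> ring
  map_smul' := by
    intro c x; funext b; obtain ⟨i, k⟩ := b
    fin_cases k <;> simp <;> ring

/-- component along a fixed direction -/
def along {n : ℕ} (a b c : ℝ) : (Fin n × Fin 3 → ℝ) →ₗ[ℝ] (Fin n → ℝ) where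
  toFun u := fun i => a * u (i, 0) + b * u (i, 1) + c * u (i, 2)
  map_add' := by intro x y; funext i; simp; ring
  map_smul' := by intro t x; funext i; simp; ring

lemma ker_ge {n : ℕ} (hn : 3 ≤ n) (P : Fin n × Fin n → Prop) [∀ a, Decidable (P a)]
    (q : Fin n → Fin 3 → ℝ) :
    6 ≤ Module.finrank ℝ (LinearMap.ker (RM P q).mulVecLin) := by
  by_cases hinj : Function.Injective (triv q)
  · have h1 : LinearMap.range (triv q) ≤ LinearMap.ker (RM P q).mulVecLin := by
      rintro _ ⟨w, rfl⟩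
      rw [mem_ker_RM]
      intro i j _
      simp [cc, triv]
      ring
    have h2 := Submodule.finrank_mono h1
    rw [LinearMap.finrank_range_of_inj hinj] at h2
    simpa using h2
  · rw [← LinearMap.ker_eq_bot, ← Ne, Submodule.ne_bot_iff] at hinj
    obtain ⟨w, hw, hw0⟩ := hinj
    rw [LinearMap.mem_ker] at hw
    have e0 : ∀ i, w 0 + (w 4 * q i 2 - w 5 * q i 1) = 0 := fun i => congrFun hw (i, 0)
    have e1 : ∀ i, w 1 + (w 5 * q i 0 - w 3 * q i 2) = 0 := fun i => congrFun hw (i, 1)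
    have e2 : ∀ i, w 2 + (w 3 * q i 1 - w 4 * q i 0) = 0 := fun i => congrFun hw (i, 2)
    have hω : w 3 ^ 2 + w 4 ^ 2 + w 5 ^ 2 ≠ 0 := by
      intro h
      have h3 : w 3 = 0 := by nlinarith [sq_nonneg (w 3), sq_nonneg (w 4), sq_nonneg (w 5)]
      have h4 : w 4 = 0 := by nlinarith [sq_nonneg (w 3), sq_nonneg (w 4), sq_nonneg (w 5)]
      have h5 : w 5 = 0 := by nlinarith [sq_nonneg (w 3), sq_nonneg (w 4), sq_nonneg (w 5)]
      let i0 : Fin n := ⟨0, by omega⟩
      have a0 := e0 i0; have a1 := e1 i0; have a2 := e2 i0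
      rw [h4, h5] at a0; rw [h5, h3] at a1; rw [h3, h4] at a2
      apply hw0
      funext k
      fin_cases k <;> simp <;> linarith
    have h1 : LinearMap.ker (along (n := n) (w 3) (w 4) (w 5)) ≤
        LinearMap.ker (RM P q).mulVecLin := by
      intro u hu
      rw [mem_ker_RM]
      intro i j _
      rw [LinearMap.mem_ker] at hu
      have hi : w 3 * u (i, 0) + w 4 * u (i, 1) + w 5 * u (i, 2) = 0 := congrFun hu i
      have hj : w 3 * u (j, 0) + w 4 * u (j, 1) + w 5 * u (j, 2) = 0 := congrFun hu j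
      apply mul_left_cancel₀ hω
      have a0 := e0 i; have a1 := e1 i; have a2 := e2 i
      have b0 := e0 j; have b1 := e1 j; have b2 := e2 j
      unfold cc
      set x := u (i, 0) - u (j, 0)
      set y := u (i, 1) - u (j, 1)
      set z := u (i, 2) - u (j, 2)
      set a := q i 0 - q j 0
      set b := q i 1 - q j 1
      set c := q i 2 - q j 2
      have h0 : w 3 * x + w 4 * y + w 5 * z = 0 := by simp only [x, y, z]; linarith
      have c0 : w 4 * c - w 5 * b = 0 := by simp only [b, c]; linarith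
      have c1 : w 5 * a - w 3 * c = 0 := by simp only [a, c]; linarith
      have c2 : w 3 * b - w 4 * a = 0 := by simp only [a, b]; linarith
      linear_combination (w 3 * a + w 4 * b + w 5 * c) * h0 + (w 4 * z - w 5 * y) * c0
        + (w 5 * x - w 3 * z) * c1 + (w 3 * y - w 4 * x) * c2
    have h2 := Submodule.finrank_mono h1
    have h3 := LinearMap.finrank_range_add_finrank_ker (along (n := n) (w 3) (w 4) (w 5))
    have h4 : Module.finrank ℝ (LinearMap.range (along (n := n) (w 3) (w 4) (w 5))) ≤ n := by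
      have := Submodule.finrank_le (LinearMap.range (along (n := n) (w 3) (w 4) (w 5)))
      simpa using this
    simp at h3
    omega

lemma ker_le {n : ℕ} (P : Fin n × Fin n → Prop) [∀ a, Decidable (P a)]
    (q : Fin n → Fin 3 → ℝ) (pin : Fin 6 → Fin n × Fin 3)
    (h : ∀ u : Fin n × Fin 3 → ℝ, (∀ i j, P (i, j) → cc q u i j = 0) → (∀ t, u (pin t) = 0) →
      u = 0) :
    Module.finrank ℝ (LinearMap.ker (RM P q).mulVecLin) ≤ 6 := by
  let φ : LinearMap.ker (RM P q).mulVecLin →ₗ[ℝ] (Fin 6 → ℝ) :=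
    (LinearMap.funLeft ℝ ℝ pin).comp (Submodule.subtype _)
  have hφ : Function.Injective φ := by
    rw [← LinearMap.ker_eq_bot, Submodule.eq_bot_iff]
    intro u hu
    rw [LinearMap.mem_ker] at hu
    apply Subtype.ext
    apply h u.1 ((mem_ker_RM P q u.1).1 u.2)
    intro t
    exact congrFun hu t
  have := LinearMap.finrank_le_finrank_of_injective hφ
  simpa using this

lemma rank_le_rank {n : ℕ} (hn : 3 ≤ n) (P P' : Fin n × Fin n → Prop) [∀ a, Decidable (P a)]
    [∀ a, Decidable (P' a)] (p q : Fin n → Fin 3 → ℝ) (pin : Fin 6 → Fin n × Fin 3)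
    (h : ∀ u : Fin n × Fin 3 → ℝ, (∀ i j, P (i, j) → cc p u i j = 0) → (∀ t, u (pin t) = 0) →
      u = 0) : (RM P' q).rank ≤ (RM P p).rank := by
  have h1 := rank_add_ker P p
  have h2 := rank_add_ker P' q
  have h3 := ker_le P p pin h
  have h4 := ker_ge hn P' q
  omega

end Pool.Agent.H.MP_1b5659_co
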