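import Mathlib
import Pool.Agent.H.MP_1b5659_co.Rank

set_option autoImplicit false

namespace Pool.Agent.H.MP_1b5659_co

/-- the five complete blocks; `v` is the vertex of the first body pinned to the last one -/
def blk (v : Fin 15) : Fin 5 → Fin 5 → Fin 15 :=
  ![![0, 1, 2, 3, 4], ![0, 1, 2, 3, 5], ![0, 6, 8, 9, 10], ![1, 6, 7, 11, 12], ![v, 7, 8, 13, 14]]

def adj (v i j : Fin 15) : Prop :=
  i ≠ j ∧ ∃ t : Fin 5, (∃ a, blk v t a = i) ∧ (∃ b, blk v t b = j)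

instance (v i j : Fin 15) : Decidable (adj v i j) := by unfold adj; infer_instance

def Gr (v : Fin 15) : SimpleGraph (Fin 15) where
  Adj i j := adj v i j
  symm := ⟨fun _ _ h => ⟨h.1.symm, h.2.imp fun _ h => ⟨h.2, h.1⟩⟩⟩
  loopless := ⟨fun _ h => h.1 rfl⟩

instance (v : Fin 15) : DecidableRel (Gr v).Adj := fun i j => inferInstanceAs (Decidable (adj v i j))

lemma not_iso : ¬ Nonempty (Gr 2 ≃g Gr 4) := by
  rintro ⟨φ⟩
  have hd : ∀ i, (Gr 4).degree (φ i) = (Gr 2).degree i := fun i => φ.degree_eq i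
  have h2 : ∀ i, (Gr 2).degree i = 5 → i = 3 := by decide +kernel
  have h4 : (Gr 4).degree 2 = 5 ∧ (Gr 4).degree 3 = 5 := by decide +kernel
  have a := h2 (φ.symm 2) (by rw [← hd]; simpa using h4.1)
  have b := h2 (φ.symm 3) (by rw [← hd]; simpa using h4.2)
  have : (2 : Fin 15) = 3 := φ.symm.injective (a.trans b.symm)
  exact absurd this (by decide)

def root (s1 s2 : Fin 15) : Fin 15 :=
  if s1 ≠ 7 ∧ s2 ≠ 7 then 7 else if s1 ≠ 8 ∧ s2 ≠ 8 then 8 else 0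

lemma root_ne : ∀ s1 s2 : Fin 15, root s1 s2 ≠ s1 ∧ root s1 s2 ≠ s2 := by decide +kernel

/-- one-step certificate: each vertex is at distance at most three from the root -/
lemma conn_cert : ∀ s1 s2 j : Fin 15, j ≠ s1 → j ≠ s2 → j = root s1 s2 ∨ adj 2 (root s1 s2) j ∨
    ∃ a, a ≠ s1 ∧ a ≠ s2 ∧ adj 2 (root s1 s2) a ∧ (adj 2 a j ∨
      ∃ b, b ≠ s1 ∧ b ≠ s2 ∧ adj 2 a b ∧ adj 2 b j) := by decide +kernel

lemma reach (S : Finset (Fin 15)) (s1 s2 : Fin 15) (hS : ∀ x, x ≠ s1 → x ≠ s2 → x ∉ S)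
    (r j : {v : Fin 15 | v ∉ S}) (hr : r.1 = root s1 s2) (h1 : j.1 ≠ s1) (h2 : j.1 ≠ s2) :
    ((Gr 2).induce {v : Fin 15 | v ∉ S}).Reachable r j := by
  have step : ∀ x y : {v : Fin 15 | v ∉ S}, adj 2 x.1 y.1 →
      ((Gr 2).induce {v : Fin 15 | v ∉ S}).Reachable x y := fun x y h =>
    SimpleGraph.Adj.reachable h
  rcases conn_cert s1 s2 j.1 h1 h2 with h | h | ⟨a, ha1, ha2, hra, h | ⟨b, hb1, hb2, hab, hbj⟩⟩
  · have : r = j := Subtype.ext (hr.trans h.symm)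
    rw [this]
  · exact step r j (hr ▸ h)
  · exact (step r ⟨a, hS a ha1 ha2⟩ (hr ▸ hra)).trans (step _ j h)
  · exact ((step r ⟨a, hS a ha1 ha2⟩ (hr ▸ hra)).trans
      (step _ ⟨b, hS b hb1 hb2⟩ hab)).trans (step _ j hbj)

lemma three_conn (S : Finset (Fin 15)) (hS : S.card ≤ 2) :
    ((Gr 2).induce {v : Fin 15 | v ∉ S}).Connected := by
  rw [SimpleGraph.connected_iff_exists_forall_reachable]
  rcases S.eq_empty_or_nonempty with rfl | ⟨s1, hs1⟩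
  · refine ⟨⟨7, by simp⟩, fun j => ?_⟩
    by_cases hj : j.1 = 0
    · exact reach ∅ 1 1 (by simp) _ j (by decide) (by rw [hj]; decide) (by rw [hj]; decide)
    · exact reach ∅ 0 0 (by simp) _ j (by decide) hj hj
  · obtain ⟨s2, hs2, hcov⟩ : ∃ s2 ∈ S, ∀ x, x ≠ s1 → x ≠ s2 → x ∉ S := by
      by_cases h : ∃ s2 ∈ S, s2 ≠ s1
      · obtain ⟨s2, hs2, hne⟩ := h
        refine ⟨s2, hs2, fun x h1 h2 hx => ?_⟩
        have : ({s1, s2, x} : Finset (Fin 15)) ⊆ S := by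
          intro y hy
          simp only [Finset.mem_insert, Finset.mem_singleton] at hy
          rcases hy with rfl | rfl | rfl <;> assumption
        have hc := Finset.card_le_card this
        rw [Finset.card_eq_three.2 ⟨s1, s2, x, hne.symm, h1.symm, h2.symm, rfl⟩] at hc
        omega
      · push Not at h
        exact ⟨s1, hs1, fun x h1 _ hx => h1 (h x hx)⟩
    refine ⟨⟨root s1 s2, hcov _ (root_ne s1 s2).1 (root_ne s1 s2).2⟩, fun j => ?_⟩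
    exact reach S s1 s2 hcov _ j rfl (fun h => j.2 (h ▸ hs1)) (fun h => j.2 (h ▸ hs2))

/-- the real configuration used for the rank bound -/
def pr : Fin 15 → Fin 3 → ℝ :=
  ![![3, 0, 0], ![0, 3, 0], ![0, 0, 3], ![0, 0, 0], ![2, 2, 2], ![2, 2, 2], ![0, 0, -3],
    ![-3, 0, 0], ![0, -3, 0], ![0, 0, 0], ![2, -2, -2], ![0, 0, 0], ![-2, 2, -2], ![0, 0, 0],
    ![-2, -2, 2]]

lemma cc_symm {n : ℕ} (q : Fin n → Fin 3 → ℝ) (u : Fin n × Fin 3 → ℝ) (i j : Fin n) :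
    cc q u i j = cc q u j i := by unfold cc; ring

lemma cc_self {n : ℕ} (q : Fin n → Fin 3 → ℝ) (u : Fin n × Fin 3 → ℝ) (i : Fin n) :
    cc q u i i = 0 := by unfold cc; ring

/-- an affine dependency of five points gives an equilibrium stress -/
lemma stress {n : ℕ} (q : Fin n → Fin 3 → ℝ) (u : Fin n × Fin 3 → ℝ) (v : Fin 5 → Fin n)
    (l : Fin 5 → ℝ) (h0 : l 0 + l 1 + l 2 + l 3 + l 4 = 0)
    (h1 : ∀ k, l 0 * q (v 0) k + l 1 * q (v 1) k + l 2 * q (v 2) k + l 3 * q (v 3) k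
      + l 4 * q (v 4) k = 0) :
    ∑ a, ∑ b, l a * l b * cc q u (v a) (v b) = 0 := by
  have hx := h1 0
  have hy := h1 1
  have hz := h1 2
  simp only [Fin.sum_univ_five, cc]
  linear_combination
    2 * (l 0 * (q (v 0) 0 * u (v 0, 0) + q (v 0) 1 * u (v 0, 1) + q (v 0) 2 * u (v 0, 2))
      + l 1 * (q (v 1) 0 * u (v 1, 0) + q (v 1) 1 * u (v 1, 1) + q (v 1) 2 * u (v 1, 2))
      + l 2 * (q (v 2) 0 * u (v 2, 0) + q (v 2) 1 * u (v 2, 1) + q (v 2) 2 * u (v 2, 2))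
      + l 3 * (q (v 3) 0 * u (v 3, 0) + q (v 3) 1 * u (v 3, 1) + q (v 3) 2 * u (v 3, 2))
      + l 4 * (q (v 4) 0 * u (v 4, 0) + q (v 4) 1 * u (v 4, 1) + q (v 4) 2 * u (v 4, 2))) * h0
    - 2 * (l 0 * u (v 0, 0) + l 1 * u (v 1, 0) + l 2 * u (v 2, 0) + l 3 * u (v 3, 0)
      + l 4 * u (v 4, 0)) * hx
    - 2 * (l 0 * u (v 0, 1) + l 1 * u (v 1, 1) + l 2 * u (v 2, 1) + l 3 * u (v 3, 1)
      + l 4 * u (v 4, 1)) * hy
    - 2 * (l 0 * u (v 0, 2) + l 1 * u (v 1, 2) + l 2 * u (v 2, 2) + l 3 * u (v 3, 2)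
      + l 4 * u (v 4, 2)) * hz

lemma stress_edge {n : ℕ} (q : Fin n → Fin 3 → ℝ) (u : Fin n × Fin 3 → ℝ) (v : Fin 5 → Fin n)
    (l : Fin 5 → ℝ) (h0 : l 0 + l 1 + l 2 + l 3 + l 4 = 0)
    (h1 : ∀ k, l 0 * q (v 0) k + l 1 * q (v 1) k + l 2 * q (v 2) k + l 3 * q (v 3) k
      + l 4 * q (v 4) k = 0) (hl : ∀ a, l a ≠ 0) (a b : Fin 5) (hab : a ≠ b)
    (h : ∀ c d, c ≠ d → s(c, d) ≠ s(a, b) → cc q u (v c) (v d) = 0) :
    cc q u (v a) (v b) = 0 := by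
  have hs := stress q u v l h0 h1
  by_contra hcon
  have hX : l a * l b * cc q u (v a) (v b) ≠ 0 := mul_ne_zero (mul_ne_zero (hl a) (hl b)) hcon
  have key : ∀ c d, l c * l d * cc q u (v c) (v d) =
      (if c = a ∧ d = b then l a * l b * cc q u (v a) (v b) else 0)
      + (if c = b ∧ d = a then l a * l b * cc q u (v a) (v b) else 0) := by
    intro c d
    by_cases h1 : c = a ∧ d = b
    · obtain ⟨rfl, rfl⟩ := h1
      simp [hab]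
    · by_cases h2 : c = b ∧ d = a
      · obtain ⟨rfl, rfl⟩ := h2
        simp [hab.symm, cc_symm q u (v c) (v d), mul_comm (l c) (l d)]
      · rw [if_neg h1, if_neg h2]
        by_cases hcd : c = d
        · rw [hcd, cc_self]; ring
        · rw [h c d hcd]
          · ring
          · intro he
            rw [Sym2.eq_iff] at he
            tauto
  rw [Finset.sum_congr rfl fun c _ => Finset.sum_congr rfl fun d _ => key c d] at hs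
  clear key
  generalize l a * l b * cc q u (v a) (v b) = X at hs hX
  simp only [Finset.sum_add_distrib, ite_and, Finset.sum_ite_eq', Finset.mem_univ,
    if_true, Finset.sum_ite_irrel, Finset.sum_const_zero] at hs
  apply hX
  linarith

lemma blk_inj : ∀ t a b, blk 2 t a = blk 2 t b → a = b := by decide +kernel

lemma all_edges (e : Sym2 (Fin 15)) (u : Fin 15 × Fin 3 → ℝ)
    (h : ∀ i j, (adj 2 i j ∧ s(i, j) ≠ e) → cc pr u i j = 0) (i j : Fin 15) (hij : adj 2 i j) :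
    cc pr u i j = 0 := by
  by_cases he : s(i, j) = e
  · obtain ⟨hne, t, ⟨a, rfl⟩, ⟨b, rfl⟩⟩ := hij
    refine stress_edge pr u (blk 2 t) ![2, 2, 2, -3, -3] (by simp; norm_num) ?_ ?_ a b
      (fun h => hne (by rw [h])) ?_
    · intro k
      fin_cases t <;> fin_cases k <;> simp [blk, pr] <;> norm_num
    · intro a
      fin_cases a <;> simp
    · intro c d hcd hs
      apply h
      refine ⟨⟨fun h => hcd (blk_inj t c d h), t, ⟨c, rfl⟩, ⟨d, rfl⟩⟩, ?_⟩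
      rw [← he]
      intro h'
      apply hs
      rw [Sym2.eq_iff] at h' ⊢
      rcases h' with ⟨h1, h2⟩ | ⟨h1, h2⟩
      · exact Or.inl ⟨blk_inj t _ _ h1, blk_inj t _ _ h2⟩
      · exact Or.inr ⟨blk_inj t _ _ h1, blk_inj t _ _ h2⟩
  · exact h i j ⟨hij, he⟩

def pin : Fin 6 → Fin 15 × Fin 3 := ![(0, 0), (0, 1), (0, 2), (1, 0), (1, 2), (2, 0)]

lemma rigid (u : Fin 15 × Fin 3 → ℝ) (h : ∀ i j, adj 2 i j → cc pr u i j = 0)
    (hp : ∀ t, u (pin t) = 0) : u = 0 := by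
  have p0 : u (0, 0) = 0 := hp 0
  have p1 : u (0, 1) = 0 := hp 1
  have p2 : u (0, 2) = 0 := hp 2
  have p3 : u (1, 0) = 0 := hp 3
  have p4 : u (1, 2) = 0 := hp 4
  have p5 : u (2, 0) = 0 := hp 5
  have e0_1 : ((3 : ℝ) - (0)) * (u (0, 0) - u (1, 0)) + ((0 : ℝ) - (3)) * (u (0, 1) - u (1, 1)) + ((0 : ℝ) - (0)) * (u (0, 2) - u (1, 2)) = 0 :=
    h 0 1 (by decide)
  have z1_1 : u (1, 1) = 0 := by linarith
  clear e0_1
  have e0_2 : ((3 : ℝ) - (0)) * (u (0, 0) - u (2, 0)) + ((0 : ℝ) - (0)) * (u (0, 1) - u (2, 1)) + ((0 : ℝ) - (3)) * (u (0, 2) - u (2, 2)) = 0 :=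
    h 0 2 (by decide)
  have e1_2 : ((0 : ℝ) - (0)) * (u (1, 0) - u (2, 0)) + ((3 : ℝ) - (0)) * (u (1, 1) - u (2, 1)) + ((0 : ℝ) - (3)) * (u (1, 2) - u (2, 2)) = 0 :=
    h 1 2 (by decide)
  have z2_1 : u (2, 1) = 0 := by linarith
  have z2_2 : u (2, 2) = 0 := by linarith
  clear e0_2 e1_2
  have e0_3 : ((3 : ℝ) - (0)) * (u (0, 0) - u (3, 0)) + ((0 : ℝ) - (0)) * (u (0, 1) - u (3, 1)) + ((0 : ℝ) - (0)) * (u (0, 2) - u (3, 2)) = 0 :=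
    h 0 3 (by decide)
  have e1_3 : ((0 : ℝ) - (0)) * (u (1, 0) - u (3, 0)) + ((3 : ℝ) - (0)) * (u (1, 1) - u (3, 1)) + ((0 : ℝ) - (0)) * (u (1, 2) - u (3, 2)) = 0 :=
    h 1 3 (by decide)
  have e2_3 : ((0 : ℝ) - (0)) * (u (2, 0) - u (3, 0)) + ((0 : ℝ) - (0)) * (u (2, 1) - u (3, 1)) + ((3 : ℝ) - (0)) * (u (2, 2) - u (3, 2)) = 0 :=
    h 2 3 (by decide)
  have z3_0 : u (3, 0) = 0 := by linarith
  have z3_1 : u (3, 1) = 0 := by linarith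
  have z3_2 : u (3, 2) = 0 := by linarith
  clear e0_3 e1_3 e2_3
  have e0_4 : ((3 : ℝ) - (2)) * (u (0, 0) - u (4, 0)) + ((0 : ℝ) - (2)) * (u (0, 1) - u (4, 1)) + ((0 : ℝ) - (2)) * (u (0, 2) - u (4, 2)) = 0 :=
    h 0 4 (by decide)
  have e1_4 : ((0 : ℝ) - (2)) * (u (1, 0) - u (4, 0)) + ((3 : ℝ) - (2)) * (u (1, 1) - u (4, 1)) + ((0 : ℝ) - (2)) * (u (1, 2) - u (4, 2)) = 0 :=
    h 1 4 (by decide)
  have e2_4 : ((0 : ℝ) - (2)) * (u (2, 0) - u (4, 0)) + ((0 : ℝ) - (2)) * (u (2, 1) - u (4, 1)) + ((3 : ℝ) - (2)) * (u (2, 2) - u (4, 2)) = 0 :=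
    h 2 4 (by decide)
  have z4_0 : u (4, 0) = 0 := by linarith
  have z4_1 : u (4, 1) = 0 := by linarith
  have z4_2 : u (4, 2) = 0 := by linarith
  clear e0_4 e1_4 e2_4
  have e0_5 : ((3 : ℝ) - (2)) * (u (0, 0) - u (5, 0)) + ((0 : ℝ) - (2)) * (u (0, 1) - u (5, 1)) + ((0 : ℝ) - (2)) * (u (0, 2) - u (5, 2)) = 0 :=
    h 0 5 (by decide)
  have e1_5 : ((0 : ℝ) - (2)) * (u (1, 0) - u (5, 0)) + ((3 : ℝ) - (2)) * (u (1, 1) - u (5, 1)) + ((0 : ℝ) - (2)) * (u (1, 2) - u (5, 2)) = 0 :=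
    h 1 5 (by decide)
  have e2_5 : ((0 : ℝ) - (2)) * (u (2, 0) - u (5, 0)) + ((0 : ℝ) - (2)) * (u (2, 1) - u (5, 1)) + ((3 : ℝ) - (2)) * (u (2, 2) - u (5, 2)) = 0 :=
    h 2 5 (by decide)
  have z5_0 : u (5, 0) = 0 := by linarith
  have z5_1 : u (5, 1) = 0 := by linarith
  have z5_2 : u (5, 2) = 0 := by linarith
  clear e0_5 e1_5 e2_5
  have e0_6 : ((3 : ℝ) - (0)) * (u (0, 0) - u (6, 0)) + ((0 : ℝ) - (0)) * (u (0, 1) - u (6, 1)) + ((0 : ℝ) - (-3)) * (u (0, 2) - u (6, 2)) = 0 :=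
    h 0 6 (by decide)
  have e0_8 : ((3 : ℝ) - (0)) * (u (0, 0) - u (8, 0)) + ((0 : ℝ) - (-3)) * (u (0, 1) - u (8, 1)) + ((0 : ℝ) - (0)) * (u (0, 2) - u (8, 2)) = 0 :=
    h 0 8 (by decide)
  have e1_6 : ((0 : ℝ) - (0)) * (u (1, 0) - u (6, 0)) + ((3 : ℝ) - (0)) * (u (1, 1) - u (6, 1)) + ((0 : ℝ) - (-3)) * (u (1, 2) - u (6, 2)) = 0 :=
    h 1 6 (by decide)
  have e1_7 : ((0 : ℝ) - (-3)) * (u (1, 0) - u (7, 0)) + ((3 : ℝ) - (0)) * (u (1, 1) - u (7, 1)) + ((0 : ℝ) - (0)) * (u (1, 2) - u (7, 2)) = 0 :=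
    h 1 7 (by decide)
  have e2_7 : ((0 : ℝ) - (-3)) * (u (2, 0) - u (7, 0)) + ((0 : ℝ) - (0)) * (u (2, 1) - u (7, 1)) + ((3 : ℝ) - (0)) * (u (2, 2) - u (7, 2)) = 0 :=
    h 2 7 (by decide)
  have e2_8 : ((0 : ℝ) - (0)) * (u (2, 0) - u (8, 0)) + ((0 : ℝ) - (-3)) * (u (2, 1) - u (8, 1)) + ((3 : ℝ) - (0)) * (u (2, 2) - u (8, 2)) = 0 :=
    h 2 8 (by decide)
  have e6_7 : ((0 : ℝ) - (-3)) * (u (6, 0) - u (7, 0)) + ((0 : ℝ) - (0)) * (u (6, 1) - u (7, 1)) + ((-3 : ℝ) - (0)) * (u (6, 2) - u (7, 2)) = 0 :=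
    h 6 7 (by decide)
  have e6_8 : ((0 : ℝ) - (0)) * (u (6, 0) - u (8, 0)) + ((0 : ℝ) - (-3)) * (u (6, 1) - u (8, 1)) + ((-3 : ℝ) - (0)) * (u (6, 2) - u (8, 2)) = 0 :=
    h 6 8 (by decide)
  have e7_8 : ((-3 : ℝ) - (0)) * (u (7, 0) - u (8, 0)) + ((0 : ℝ) - (-3)) * (u (7, 1) - u (8, 1)) + ((0 : ℝ) - (0)) * (u (7, 2) - u (8, 2)) = 0 :=
    h 7 8 (by decide)
  have z6_0 : u (6, 0) = 0 := by linarith
  have z6_1 : u (6, 1) = 0 := by linarith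
  have z6_2 : u (6, 2) = 0 := by linarith
  have z7_0 : u (7, 0) = 0 := by linarith
  have z7_1 : u (7, 1) = 0 := by linarith
  have z7_2 : u (7, 2) = 0 := by linarith
  have z8_0 : u (8, 0) = 0 := by linarith
  have z8_1 : u (8, 1) = 0 := by linarith
  have z8_2 : u (8, 2) = 0 := by linarith
  clear e0_6 e0_8 e1_6 e1_7 e2_7 e2_8 e6_7 e6_8 e7_8
  have e0_9 : ((3 : ℝ) - (0)) * (u (0, 0) - u (9, 0)) + ((0 : ℝ) - (0)) * (u (0, 1) - u (9, 1)) + ((0 : ℝ) - (0)) * (u (0, 2) - u (9, 2)) = 0 :=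
    h 0 9 (by decide)
  have e6_9 : ((0 : ℝ) - (0)) * (u (6, 0) - u (9, 0)) + ((0 : ℝ) - (0)) * (u (6, 1) - u (9, 1)) + ((-3 : ℝ) - (0)) * (u (6, 2) - u (9, 2)) = 0 :=
    h 6 9 (by decide)
  have e8_9 : ((0 : ℝ) - (0)) * (u (8, 0) - u (9, 0)) + ((-3 : ℝ) - (0)) * (u (8, 1) - u (9, 1)) + ((0 : ℝ) - (0)) * (u (8, 2) - u (9, 2)) = 0 :=
    h 8 9 (by decide)
  have z9_0 : u (9, 0) = 0 := by linarith
  have z9_1 : u (9, 1) = 0 := by linarith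
  have z9_2 : u (9, 2) = 0 := by linarith
  clear e0_9 e6_9 e8_9
  have e0_10 : ((3 : ℝ) - (2)) * (u (0, 0) - u (10, 0)) + ((0 : ℝ) - (-2)) * (u (0, 1) - u (10, 1)) + ((0 : ℝ) - (-2)) * (u (0, 2) - u (10, 2)) = 0 :=
    h 0 10 (by decide)
  have e6_10 : ((0 : ℝ) - (2)) * (u (6, 0) - u (10, 0)) + ((0 : ℝ) - (-2)) * (u (6, 1) - u (10, 1)) + ((-3 : ℝ) - (-2)) * (u (6, 2) - u (10, 2)) = 0 :=
    h 6 10 (by decide)
  have e8_10 : ((0 : ℝ) - (2)) * (u (8, 0) - u (10, 0)) + ((-3 : ℝ) - (-2)) * (u (8, 1) - u (10, 1)) + ((0 : ℝ) - (-2)) * (u (8, 2) - u (10, 2)) = 0 :=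
    h 8 10 (by decide)
  have z10_0 : u (10, 0) = 0 := by linarith
  have z10_1 : u (10, 1) = 0 := by linarith
  have z10_2 : u (10, 2) = 0 := by linarith
  clear e0_10 e6_10 e8_10
  have e1_11 : ((0 : ℝ) - (0)) * (u (1, 0) - u (11, 0)) + ((3 : ℝ) - (0)) * (u (1, 1) - u (11, 1)) + ((0 : ℝ) - (0)) * (u (1, 2) - u (11, 2)) = 0 :=
    h 1 11 (by decide)
  have e6_11 : ((0 : ℝ) - (0)) * (u (6, 0) - u (11, 0)) + ((0 : ℝ) - (0)) * (u (6, 1) - u (11, 1)) + ((-3 : ℝ) - (0)) * (u (6, 2) - u (11, 2)) = 0 :=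
    h 6 11 (by decide)
  have e7_11 : ((-3 : ℝ) - (0)) * (u (7, 0) - u (11, 0)) + ((0 : ℝ) - (0)) * (u (7, 1) - u (11, 1)) + ((0 : ℝ) - (0)) * (u (7, 2) - u (11, 2)) = 0 :=
    h 7 11 (by decide)
  have z11_0 : u (11, 0) = 0 := by linarith
  have z11_1 : u (11, 1) = 0 := by linarith
  have z11_2 : u (11, 2) = 0 := by linarith
  clear e1_11 e6_11 e7_11
  have e1_12 : ((0 : ℝ) - (-2)) * (u (1, 0) - u (12, 0)) + ((3 : ℝ) - (2)) * (u (1, 1) - u (12, 1)) + ((0 : ℝ) - (-2)) * (u (1, 2) - u (12, 2)) = 0 :=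
    h 1 12 (by decide)
  have e6_12 : ((0 : ℝ) - (-2)) * (u (6, 0) - u (12, 0)) + ((0 : ℝ) - (2)) * (u (6, 1) - u (12, 1)) + ((-3 : ℝ) - (-2)) * (u (6, 2) - u (12, 2)) = 0 :=
    h 6 12 (by decide)
  have e7_12 : ((-3 : ℝ) - (-2)) * (u (7, 0) - u (12, 0)) + ((0 : ℝ) - (2)) * (u (7, 1) - u (12, 1)) + ((0 : ℝ) - (-2)) * (u (7, 2) - u (12, 2)) = 0 :=
    h 7 12 (by decide)
  have z12_0 : u (12, 0) = 0 := by linarith
  have z12_1 : u (12, 1) = 0 := by linarith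
  have z12_2 : u (12, 2) = 0 := by linarith
  clear e1_12 e6_12 e7_12
  have e2_13 : ((0 : ℝ) - (0)) * (u (2, 0) - u (13, 0)) + ((0 : ℝ) - (0)) * (u (2, 1) - u (13, 1)) + ((3 : ℝ) - (0)) * (u (2, 2) - u (13, 2)) = 0 :=
    h 2 13 (by decide)
  have e7_13 : ((-3 : ℝ) - (0)) * (u (7, 0) - u (13, 0)) + ((0 : ℝ) - (0)) * (u (7, 1) - u (13, 1)) + ((0 : ℝ) - (0)) * (u (7, 2) - u (13, 2)) = 0 :=
    h 7 13 (by decide)
  have e8_13 : ((0 : ℝ) - (0)) * (u (8, 0) - u (13, 0)) + ((-3 : ℝ) - (0)) * (u (8, 1) - u (13, 1)) + ((0 : ℝ) - (0)) * (u (8, 2) - u (13, 2)) = 0 :=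
    h 8 13 (by decide)
  have z13_0 : u (13, 0) = 0 := by linarith
  have z13_1 : u (13, 1) = 0 := by linarith
  have z13_2 : u (13, 2) = 0 := by linarith
  clear e2_13 e7_13 e8_13
  have e2_14 : ((0 : ℝ) - (-2)) * (u (2, 0) - u (14, 0)) + ((0 : ℝ) - (-2)) * (u (2, 1) - u (14, 1)) + ((3 : ℝ) - (2)) * (u (2, 2) - u (14, 2)) = 0 :=
    h 2 14 (by decide)
  have e7_14 : ((-3 : ℝ) - (-2)) * (u (7, 0) - u (14, 0)) + ((0 : ℝ) - (-2)) * (u (7, 1) - u (14, 1)) + ((0 : ℝ) - (2)) * (u (7, 2) - u (14, 2)) = 0 :=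
    h 7 14 (by decide)
  have e8_14 : ((0 : ℝ) - (-2)) * (u (8, 0) - u (14, 0)) + ((-3 : ℝ) - (-2)) * (u (8, 1) - u (14, 1)) + ((0 : ℝ) - (2)) * (u (8, 2) - u (14, 2)) = 0 :=
    h 8 14 (by decide)
  have z14_0 : u (14, 0) = 0 := by linarith
  have z14_1 : u (14, 1) = 0 := by linarith
  have z14_2 : u (14, 2) = 0 := by linarith
  clear e2_14 e7_14 e8_14
  funext b
  obtain ⟨i, k⟩ := b
  fin_cases i <;> fin_cases k <;> assumption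

end Pool.Agent.H.MP_1b5659_co
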