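import Mathlib

set_option autoImplicit false

namespace Pool.Agent.H.MP_1b5659_co

open Matrix Filter Topology

def dd (x y : Fin 3 → ℂ) : ℂ := ∑ k : Fin 3, (x k - y k) ^ 2

def frame (u0 u1 u2 : Fin 3 → ℂ) : Matrix (Fin 3) (Fin 3) ℂ :=
  Matrix.of ![u1 - u0, u2 - u0, crossProduct (u1 - u0) (u2 - u0)]

noncomputable def gram (u0 u1 u2 : Fin 3 → ℂ) : ℂ :=
  dd u0 u1 * dd u0 u2 - ((dd u0 u1 + dd u0 u2 - dd u1 u2) / 2) ^ 2

lemma frame_det (u0 u1 u2 : Fin 3 → ℂ) : (frame u0 u1 u2).det = gram u0 u1 u2 := by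
  simp [frame, gram, dd, Matrix.det_fin_three, crossProduct, Fin.sum_univ_three]
  ring

lemma frame_gram (u0 u1 u2 : Fin 3 → ℂ) : frame u0 u1 u2 * (frame u0 u1 u2)ᵀ =
    !![dd u0 u1, (dd u0 u1 + dd u0 u2 - dd u1 u2) / 2, 0;
      (dd u0 u1 + dd u0 u2 - dd u1 u2) / 2, dd u0 u2, 0; 0, 0, gram u0 u1 u2] := by
  ext i j
  fin_cases i <;> fin_cases j <;>
    simp [frame, gram, dd, Matrix.mul_apply, crossProduct, Fin.sum_univ_three] <;> ring

lemma transfer (u0 u1 u2 v0 v1 v2 : Fin 3 → ℂ) (h01 : dd v0 v1 = dd u0 u1)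
    (h02 : dd v0 v2 = dd u0 u2) (h12 : dd v1 v2 = dd u1 u2) (hG : gram u0 u1 u2 ≠ 0) :
    ∃ φ : (Fin 3 → ℂ) → (Fin 3 → ℂ), φ u0 = v0 ∧ φ u1 = v1 ∧ φ u2 = v2 ∧
      ∀ x y, dd (φ x) (φ y) = dd x y := by
  set E := frame u0 u1 u2 with hE
  set F := frame v0 v1 v2 with hF
  have hEF : F * Fᵀ = E * Eᵀ := by
    rw [hE, hF, frame_gram, frame_gram]
    simp only [gram, h01, h02, h12]
  have hdet : IsUnit E.det := by rw [hE, frame_det]; exact isUnit_iff_ne_zero.2 hG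
  have hdet' : IsUnit Eᵀ.det := by rwa [Matrix.det_transpose]
  set A := E⁻¹ * F with hA
  have hAA : A * Aᵀ = 1 := by
    rw [hA, Matrix.transpose_mul, Matrix.mul_assoc, ← Matrix.mul_assoc F, hEF,
      Matrix.transpose_nonsing_inv, Matrix.mul_assoc, Matrix.mul_nonsing_inv _ hdet',
      Matrix.mul_one, Matrix.nonsing_inv_mul _ hdet]
  have hrow : ∀ i, E i ᵥ* A = F i := by
    intro i
    have : E * A = F := by rw [hA, ← Matrix.mul_assoc, Matrix.mul_nonsing_inv _ hdet, Matrix.one_mul]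
    rw [← this]
    rfl
  refine ⟨fun x => v0 + (x - u0) ᵥ* A, by simp, ?_, ?_, ?_⟩
  · have := hrow 0
    have e : E 0 = u1 - u0 := rfl
    have f : F 0 = v1 - v0 := rfl
    simp only [← e, this, f]; abel
  · have := hrow 1
    have e : E 1 = u2 - u0 := rfl
    have f : F 1 = v2 - v0 := rfl
    simp only [← e, this, f]; abel
  · intro x y
    have hd : ∀ a b : Fin 3 → ℂ, dd a b = (a - b) ⬝ᵥ (a - b) := by
      intro a b; simp [dd, dotProduct, sq]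
    rw [hd, hd]
    have : v0 + (x - u0) ᵥ* A - (v0 + (y - u0) ᵥ* A) = (x - y) ᵥ* A := by
      rw [add_sub_add_left_eq_sub, ← Matrix.sub_vecMul]; congr 1; abel
    rw [this]
    conv_lhs => rw [← Matrix.mulVec_transpose A (x - y), Matrix.dotProduct_mulVec,
      Matrix.mulVec_transpose, Matrix.vecMul_vecMul, hAA, Matrix.vecMul_one]

abbrev Cf := Fin 15 → Fin 3 → ℂ

/-- the nine octahedron edges at the vertices 6, 7, 8 -/
def oe (w : Fin 15) (i : Fin 15) : Fin 3 → Fin 15 × Fin 15 :=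
  if i = 6 then ![(0, 6), (1, 6), (6, 7)] else if i = 7 then ![(1, 7), (w, 7), (7, 8)]
  else ![(0, 8), (w, 8), (6, 8)]

noncomputable def Psi (w : Fin 15) (p : Cf) : Cf := fun i k =>
  if i = 6 ∨ i = 7 ∨ i = 8 then dd (p (oe w i k).1) (p (oe w i k).2) else p i k

def p0 : Cf := fun i =>
  if i = 0 then ![1, 0, 0] else if i = 1 then ![0, 1, 0] else if i = 6 then ![0, 0, -1]
  else if i = 7 then ![-1, 0, 0] else if i = 8 then ![0, -1, 0] else ![0, 0, 1]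

noncomputable def pj (i : Fin 15) (k : Fin 3) : Cf →L[ℂ] ℂ :=
  (ContinuousLinearMap.proj (R := ℂ) (φ := fun _ : Fin 3 => ℂ) k).comp
    (ContinuousLinearMap.proj (R := ℂ) (φ := fun _ : Fin 15 => Fin 3 → ℂ) i)

noncomputable def dD (p : Cf) (i j : Fin 15) : Cf →L[ℂ] ℂ :=
  ∑ k : Fin 3, (2 * (p i k - p j k)) • (pj i k - pj j k)

lemma hasD (p : Cf) (i j : Fin 15) :
    HasStrictFDerivAt (fun q : Cf => dd (q i) (q j)) (dD p i j) p := by
  unfold dd dD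
  apply HasStrictFDerivAt.fun_sum
  intro k _
  have h := (pj i k - pj j k).hasStrictFDerivAt (x := p)
  have h2 := h.mul h
  have e1 : (fun q : Cf => (q i k - q j k) ^ 2) = ⇑(pj i k - pj j k) * ⇑(pj i k - pj j k) := by
    funext q; simp [pj, sq]
  have e2 : (2 * (p i k - p j k)) • (pj i k - pj j k) =
      (pj i k - pj j k) p • (pj i k - pj j k) + (pj i k - pj j k) p • (pj i k - pj j k) := by
    refine ContinuousLinearMap.ext fun q => ?_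
    simp [pj]; ring
  rw [e1, e2]
  exact h2

noncomputable def LL (w : Fin 15) : Cf →L[ℂ] Cf :=
  ContinuousLinearMap.pi fun i => ContinuousLinearMap.pi fun k =>
    if i = 6 ∨ i = 7 ∨ i = 8 then dD p0 (oe w i k).1 (oe w i k).2 else pj i k

lemma hasPsi (w : Fin 15) : HasStrictFDerivAt (Psi w) (LL w) p0 := by
  unfold Psi LL
  rw [hasStrictFDerivAt_pi]
  intro i
  rw [hasStrictFDerivAt_pi]
  intro k
  by_cases h : i = 6 ∨ i = 7 ∨ i = 8
  · simp only [h, if_true]; exact hasD _ _ _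
  · simp only [h, if_false]; exact (pj i k).hasStrictFDerivAt

lemma LL_inj (w : Fin 15) (hw : w = 2 ∨ w = 4) : Function.Injective (LL w) := by
  rw [injective_iff_map_eq_zero]
  intro h hh
  have hz : ∀ i k, ¬ (i = 6 ∨ i = 7 ∨ i = 8) → h i k = 0 := by
    intro i k hi
    have := congrFun (congrFun hh i) k
    simpa [LL, hi, pj] using this
  have he : ∀ i k, (i = 6 ∨ i = 7 ∨ i = 8) → dD p0 (oe w i k).1 (oe w i k).2 h = 0 := by
    intro i k hi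
    have := congrFun (congrFun hh i) k
    simpa [LL, hi] using this
  have hw' : ¬ (w = 6 ∨ w = 7 ∨ w = 8) := by rcases hw with rfl | rfl <;> decide
  have hpw : p0 w = ![0, 0, 1] := by rcases hw with rfl | rfl <;> rfl
  have e1 := he 6 0 (by decide)
  have e2 := he 6 1 (by decide)
  have e3 := he 6 2 (by decide)
  have e4 := he 7 0 (by decide)
  have e5 := he 7 1 (by decide)
  have e6 := he 7 2 (by decide)
  have e7 := he 8 0 (by decide)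
  have e8 := he 8 1 (by decide)
  have e9 := he 8 2 (by decide)
  have z0 := fun k => hz 0 k (by decide)
  have z1 := fun k => hz 1 k (by decide)
  have zw := fun k => hz w k hw'
  have q0 : p0 0 = ![1, 0, 0] := rfl
  have q1 : p0 1 = ![0, 1, 0] := rfl
  have q6 : p0 6 = ![0, 0, -1] := rfl
  have q7 : p0 7 = ![-1, 0, 0] := rfl
  have q8 : p0 8 = ![0, -1, 0] := rfl
  simp [oe, dD, pj, Fin.sum_univ_three, hpw, q0, q1, q6, q7, q8, z0, z1, zw]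
    at e1 e2 e3 e4 e5 e6 e7 e8 e9
  have y60 : h 6 0 = 0 := by
    linear_combination (-3 / 8 : ℂ) * e1 + (1 / 8 : ℂ) * e2 + (1 / 8 : ℂ) * e3 + (-1 / 8 : ℂ) * e4 + (1 / 8 : ℂ) * e5 + (-1 / 8 : ℂ) * e6 + (-1 / 8 : ℂ) * e7 + (1 / 8 : ℂ) * e8 + (1 / 8 : ℂ) * e9
  have y61 : h 6 1 = 0 := by
    linear_combination (1 / 8 : ℂ) * e1 + (-3 / 8 : ℂ) * e2 + (1 / 8 : ℂ) * e3 + (-1 / 8 : ℂ) * e4 + (1 / 8 : ℂ) * e5 + (-1 / 8 : ℂ) * e6 + (-1 / 8 : ℂ) * e7 + (1 / 8 : ℂ) * e8 + (1 / 8 : ℂ) * e9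
  have y62 : h 6 2 = 0 := by
    linear_combination (-1 / 8 : ℂ) * e1 + (-1 / 8 : ℂ) * e2 + (-1 / 8 : ℂ) * e3 + (1 / 8 : ℂ) * e4 + (-1 / 8 : ℂ) * e5 + (1 / 8 : ℂ) * e6 + (1 / 8 : ℂ) * e7 + (-1 / 8 : ℂ) * e8 + (-1 / 8 : ℂ) * e9
  have y70 : h 7 0 = 0 := by
    linear_combination (-1 / 8 : ℂ) * e1 + (1 / 8 : ℂ) * e2 + (-1 / 8 : ℂ) * e3 + (-1 / 8 : ℂ) * e4 + (-1 / 8 : ℂ) * e5 + (-1 / 8 : ℂ) * e6 + (-1 / 8 : ℂ) * e7 + (1 / 8 : ℂ) * e8 + (1 / 8 : ℂ) * e9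
  have y71 : h 7 1 = 0 := by
    linear_combination (1 / 8 : ℂ) * e1 + (-1 / 8 : ℂ) * e2 + (1 / 8 : ℂ) * e3 + (-3 / 8 : ℂ) * e4 + (1 / 8 : ℂ) * e5 + (1 / 8 : ℂ) * e6 + (1 / 8 : ℂ) * e7 + (-1 / 8 : ℂ) * e8 + (-1 / 8 : ℂ) * e9
  have y72 : h 7 2 = 0 := by
    linear_combination (1 / 8 : ℂ) * e1 + (-1 / 8 : ℂ) * e2 + (1 / 8 : ℂ) * e3 + (1 / 8 : ℂ) * e4 + (-3 / 8 : ℂ) * e5 + (1 / 8 : ℂ) * e6 + (1 / 8 : ℂ) * e7 + (-1 / 8 : ℂ) * e8 + (-1 / 8 : ℂ) * e9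
  have y80 : h 8 0 = 0 := by
    linear_combination (-1 / 8 : ℂ) * e1 + (1 / 8 : ℂ) * e2 + (-1 / 8 : ℂ) * e3 + (1 / 8 : ℂ) * e4 + (-1 / 8 : ℂ) * e5 + (1 / 8 : ℂ) * e6 + (-3 / 8 : ℂ) * e7 + (1 / 8 : ℂ) * e8 + (1 / 8 : ℂ) * e9
  have y81 : h 8 1 = 0 := by
    linear_combination (1 / 8 : ℂ) * e1 + (-1 / 8 : ℂ) * e2 + (1 / 8 : ℂ) * e3 + (-1 / 8 : ℂ) * e4 + (1 / 8 : ℂ) * e5 + (-1 / 8 : ℂ) * e6 + (-1 / 8 : ℂ) * e7 + (-1 / 8 : ℂ) * e8 + (-1 / 8 : ℂ) * e9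
  have y82 : h 8 2 = 0 := by
    linear_combination (-1 / 8 : ℂ) * e1 + (1 / 8 : ℂ) * e2 + (-1 / 8 : ℂ) * e3 + (1 / 8 : ℂ) * e4 + (-1 / 8 : ℂ) * e5 + (1 / 8 : ℂ) * e6 + (1 / 8 : ℂ) * e7 + (-3 / 8 : ℂ) * e8 + (1 / 8 : ℂ) * e9
  funext i k
  by_cases hi : i = 6 ∨ i = 7 ∨ i = 8
  · rcases hi with rfl | rfl | rfl <;> fin_cases k <;> assumption
  · exact hz i k hi

lemma range_Psi (w : Fin 15) (hw : w = 2 ∨ w = 4) : Set.range (Psi w) ∈ 𝓝 (Psi w p0) := by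
  have hs : (LL w).range = ⊤ := by
    rw [LinearMap.range_eq_top]
    exact (LinearMap.injective_iff_surjective (f := (LL w : Cf →ₗ[ℂ] Cf))).1 (LL_inj w hw)
  rw [← (hasPsi w).map_nhds_eq_of_surj hs]
  exact Filter.range_mem_map

lemma Psi_p0 (v w : Fin 15) (hv : v = 2 ∨ v = 4) (hw : w = 2 ∨ w = 4) : Psi v p0 = Psi w p0 := by
  have h : p0 v = p0 w := by rcases hv with rfl | rfl <;> rcases hw with rfl | rfl <;> rfl
  funext i k
  unfold Psi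
  by_cases hi : i = 6 ∨ i = 7 ∨ i = 8
  · simp only [hi, if_true]
    rcases hi with rfl | rfl | rfl <;> fin_cases k <;> simp [oe, h]
  · simp only [hi, if_false]

lemma ev_oct (v w : Fin 15) (hv : v = 2 ∨ v = 4) (hw : w = 2 ∨ w = 4) :
    ∀ᶠ p in 𝓝 p0, ∃ q, Psi w q = Psi v p := by
  have h := range_Psi w hw
  rw [← Psi_p0 v w hv hw] at h
  exact (hasPsi v).continuousAt.eventually h

lemma ev_gram (i j l : Fin 15) (h : gram (p0 i) (p0 j) (p0 l) ≠ 0) :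
    ∀ᶠ p in 𝓝 p0, gram (p i) (p j) (p l) ≠ 0 := by
  have : Continuous fun p : Cf => gram (p i) (p j) (p l) := by
    unfold gram dd; fun_prop
  exact this.continuousAt.eventually_ne h

lemma dd_symm (x y : Fin 3 → ℂ) : dd x y = dd y x := by
  unfold dd; apply Finset.sum_congr rfl; intro k _; ring

/-- near `p0`, moving the pin from `v` to `w` can be compensated -/
lemma ev_move (v w : Fin 15) (hv : v = 2 ∨ v = 4) (hw : w = 2 ∨ w = 4) :
    ∀ᶠ p in 𝓝 p0, ∃ q : Cf, (∀ i : Fin 15, i.1 < 6 → q i = p i) ∧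
      (∀ a b : Fin 5, dd (q (![0, 6, 8, 9, 10] a)) (q (![0, 6, 8, 9, 10] b)) =
        dd (p (![0, 6, 8, 9, 10] a)) (p (![0, 6, 8, 9, 10] b))) ∧
      (∀ a b : Fin 5, dd (q (![1, 6, 7, 11, 12] a)) (q (![1, 6, 7, 11, 12] b)) =
        dd (p (![1, 6, 7, 11, 12] a)) (p (![1, 6, 7, 11, 12] b))) ∧
      (∀ a b : Fin 5, dd (q (![w, 7, 8, 13, 14] a)) (q (![w, 7, 8, 13, 14] b)) =
        dd (p (![v, 7, 8, 13, 14] a)) (p (![v, 7, 8, 13, 14] b))) := by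
  have g1 := ev_gram 0 6 8 (by simp [gram, dd, p0, Fin.sum_univ_three]; norm_num)
  have g2 := ev_gram 1 6 7 (by simp [gram, dd, p0, Fin.sum_univ_three]; norm_num)
  have g3 := ev_gram v 7 8 (by
    rcases hv with rfl | rfl <;> simp [gram, dd, p0, Fin.sum_univ_three] <;> norm_num)
  filter_upwards [ev_oct v w hv hw, g1, g2, g3] with p ⟨q, hq⟩ g1 g2 g3
  have hz : ∀ i, ¬ (i = 6 ∨ i = 7 ∨ i = 8) → q i = p i := by
    intro i hi
    funext k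
    have := congrFun (congrFun hq i) k
    simpa [Psi, hi] using this
  have e1 : dd (q 0) (q 6) = dd (p 0) (p 6) := congrFun (congrFun hq 6) 0
  have e2 : dd (q 1) (q 6) = dd (p 1) (p 6) := congrFun (congrFun hq 6) 1
  have e3 : dd (q 6) (q 7) = dd (p 6) (p 7) := congrFun (congrFun hq 6) 2
  have e4 : dd (q 1) (q 7) = dd (p 1) (p 7) := congrFun (congrFun hq 7) 0
  have e5 : dd (q w) (q 7) = dd (p v) (p 7) := congrFun (congrFun hq 7) 1
  have e6 : dd (q 7) (q 8) = dd (p 7) (p 8) := congrFun (congrFun hq 7) 2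
  have e7 : dd (q 0) (q 8) = dd (p 0) (p 8) := congrFun (congrFun hq 8) 0
  have e8 : dd (q w) (q 8) = dd (p v) (p 8) := congrFun (congrFun hq 8) 1
  have e9 : dd (q 6) (q 8) = dd (p 6) (p 8) := congrFun (congrFun hq 8) 2
  obtain ⟨f1, a0, a1, a2, a3⟩ := transfer _ _ _ _ _ _ e1 e7 e9 g1
  obtain ⟨f2, b0, b1, b2, b3⟩ := transfer _ _ _ _ _ _ e2 e4 e3 g2
  obtain ⟨f3, c0, c1, c2, c3⟩ := transfer _ _ _ _ _ _ e5 e8 e6 g3
  let r : Cf := fun i => if i.1 < 9 then q i else if i.1 < 11 then f1 (p i)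
    else if i.1 < 13 then f2 (p i) else f3 (p i)
  have rw' : r w = q w := by rcases hw with rfl | rfl <;> rfl
  refine ⟨r, ?_, ?_, ?_, ?_⟩
  · intro i hi
    have : r i = q i := by simp only [r]; rw [if_pos (by omega)]
    rw [this]
    apply hz
    rintro (rfl | rfl | rfl) <;> simp at hi
  · have : ∀ a : Fin 5, r (![0, 6, 8, 9, 10] a) = f1 (p (![0, 6, 8, 9, 10] a)) := by
      intro a
      fin_cases a
      exacts [a0.symm, a1.symm, a2.symm, rfl, rfl]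
    intro a b
    rw [this, this, a3]
  · have : ∀ a : Fin 5, r (![1, 6, 7, 11, 12] a) = f2 (p (![1, 6, 7, 11, 12] a)) := by
      intro a
      fin_cases a
      exacts [b0.symm, b1.symm, b2.symm, rfl, rfl]
    intro a b
    rw [this, this, b3]
  · have : ∀ a : Fin 5, r (![w, 7, 8, 13, 14] a) = f3 (p (![v, 7, 8, 13, 14] a)) := by
      intro a
      fin_cases a
      exacts [rw'.trans c0.symm, c1.symm, c2.symm, rfl, rfl]
    intro a b
    rw [this, this, c3]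

end Pool.Agent.H.MP_1b5659_co
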