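import Mathlib
import Pool.Agent.H.MP_1b5659_co.Graph
import Pool.Agent.H.MP_1b5659_co.Local

set_option autoImplicit false

namespace Pool.Agent.H.MP_1b5659_co

open Filter Topology

def ff (i j : Fin 15) : Fin 15 :=
  if i = 7 ∨ i = 8 ∨ i = 13 ∨ i = 14 ∨ j = 7 ∨ j = 8 ∨ j = 13 ∨ j = 14 then
    (if i = 2 then 4 else if i = 4 then 2 else i) else i

def tau : Sym2 (Fin 15) → Sym2 (Fin 15) :=
  Sym2.lift ⟨fun i j => s(ff i j, ff j i), fun _ _ => Sym2.eq_swap⟩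

lemma ff_ff : ∀ i j, ff (ff i j) (ff j i) = i := by decide +kernel

lemma tau_tau (e : Sym2 (Fin 15)) : tau (tau e) = e := by
  induction e using Sym2.ind with
  | h i j => simp [tau, ff_ff]

lemma ff_blk (v w : Fin 15) (h : (v = 2 ∧ w = 4) ∨ (v = 4 ∧ w = 2)) :
    ∀ t a b, blk v t a ≠ blk v t b → ff (blk v t a) (blk v t b) = blk w t a := by
  rcases h with ⟨rfl, rfl⟩ | ⟨rfl, rfl⟩ <;> decide +kernel

lemma ff_adj (v w : Fin 15) (h : (v = 2 ∧ w = 4) ∨ (v = 4 ∧ w = 2)) :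
    ∀ i j, adj v i j → adj w (ff i j) (ff j i) := by
  rcases h with ⟨rfl, rfl⟩ | ⟨rfl, rfl⟩ <;> decide +kernel

lemma tau_mem (v w : Fin 15) (h : (v = 2 ∧ w = 4) ∨ (v = 4 ∧ w = 2)) (e : Sym2 (Fin 15))
    (he : e ∈ (Gr v).edgeSet) : tau e ∈ (Gr w).edgeSet := by
  induction e using Sym2.ind with
  | h i j => exact ff_adj v w h i j he

def sigma : (Gr 2).edgeSet ≃ (Gr 4).edgeSet where
  toFun e := ⟨tau e.1, tau_mem 2 4 (Or.inl ⟨rfl, rfl⟩) e.1 e.2⟩
  invFun e := ⟨tau e.1, tau_mem 4 2 (Or.inr ⟨rfl, rfl⟩) e.1 e.2⟩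
  left_inv e := Subtype.ext (tau_tau e.1)
  right_inv e := Subtype.ext (tau_tau e.1)

def len (p : Cf) : Sym2 (Fin 15) → ℂ :=
  Sym2.lift ⟨fun i j => dd (p i) (p j), fun _ _ => dd_symm _ _⟩

lemma ev_len (v w : Fin 15) (h : (v = 2 ∧ w = 4) ∨ (v = 4 ∧ w = 2)) :
    ∀ᶠ p in 𝓝 p0, ∃ q : Cf, ∀ e ∈ (Gr v).edgeSet, len q (tau e) = len p e := by
  have hv : v = 2 ∨ v = 4 := by tauto
  have hw : w = 2 ∨ w = 4 := by tauto
  filter_upwards [ev_move v w hv hw] with p ⟨q, h0, h2, h3, h4⟩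
  refine ⟨q, fun e he => ?_⟩
  induction e using Sym2.ind with
  | h i j =>
    obtain ⟨hne, t, ⟨a, rfl⟩, ⟨b, rfl⟩⟩ : adj v i j := he
    show dd (q (ff _ _)) (q (ff _ _)) = dd (p _) (p _)
    rw [ff_blk v w h t a b hne, ff_blk v w h t b a hne.symm]
    have l0 : ∀ c : Fin 5, ((![0, 1, 2, 3, 4] : Fin 5 → Fin 15) c).1 < 6 := by decide
    have l1 : ∀ c : Fin 5, ((![0, 1, 2, 3, 5] : Fin 5 → Fin 15) c).1 < 6 := by decide
    fin_cases t
    · show dd (q (![0, 1, 2, 3, 4] a)) (q (![0, 1, 2, 3, 4] b)) =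
        dd (p (![0, 1, 2, 3, 4] a)) (p (![0, 1, 2, 3, 4] b))
      rw [h0 _ (l0 a), h0 _ (l0 b)]
    · show dd (q (![0, 1, 2, 3, 5] a)) (q (![0, 1, 2, 3, 5] b)) =
        dd (p (![0, 1, 2, 3, 5] a)) (p (![0, 1, 2, 3, 5] b))
      rw [h0 _ (l1 a), h0 _ (l1 b)]
    · exact h2 a b
    · exact h3 a b
    · exact h4 a b

lemma len_analytic (e : Sym2 (Fin 15)) (p : Cf) : AnalyticAt ℂ (fun q : Cf => len q e) p := by
  induction e using Sym2.ind with
  | h i j =>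
    show AnalyticAt ℂ (fun q : Cf => ∑ k : Fin 3, (q i k - q j k) ^ 2) p
    apply Finset.analyticAt_fun_sum
    intro k _
    exact ((pj i k - pj j k).analyticAt p).fun_pow 2

lemma closure_move (v w : Fin 15) (h : (v = 2 ∧ w = 4) ∨ (v = 4 ∧ w = 2))
    (g : MvPolynomial (Gr w).edgeSet ℂ)
    (hg : ∀ q : Cf, MvPolynomial.eval (fun e : (Gr w).edgeSet => len q e.1) g = 0) (p : Cf) :
    MvPolynomial.eval (fun e : (Gr w).edgeSet => len p (tau e.1)) g = 0 := by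
  have han : AnalyticOnNhd ℂ
      (fun p : Cf => MvPolynomial.eval (fun e : (Gr w).edgeSet => len p (tau e.1)) g) Set.univ :=
    fun x _ => AnalyticAt.aeval_mvPolynomial
      (f := fun (p : Cf) (e : (Gr w).edgeSet) => len p (tau e.1))
      (fun e => len_analytic _ x) g
  have hev : (fun p : Cf => MvPolynomial.eval (fun e : (Gr w).edgeSet => len p (tau e.1)) g)
      =ᶠ[𝓝 p0] fun _ => 0 := by
    filter_upwards [ev_len v w h] with p ⟨q, hq⟩
    rw [← hg q]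
    congr 2
    funext e
    rw [← hq _ (tau_mem w v (by tauto) e.1 e.2), tau_tau]
  exact congrFun (AnalyticOnNhd.eq_of_eventuallyEq han analyticOnNhd_const hev) p

lemma spec_iff (v : Fin 15) (p : Cf) (z : (Gr v).edgeSet → ℂ) :
    (∀ (e : (Gr v).edgeSet) (a b : Fin 15), s(a, b) = e.1 →
      z e = ∑ k : Fin 3, (p a k - p b k) ^ 2) ↔ z = fun e => len p e.1 := by
  constructor
  · intro h
    funext ⟨e, he⟩
    induction e using Sym2.ind with
    | h i j => exact h _ i j rfl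
  · rintro rfl e a b hab
    show len p e.1 = _
    rw [← hab]
    rfl

end Pool.Agent.H.MP_1b5659_co
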